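import Pool.Agent.P8H39.FDF.Stm2

/-! # Packages HOL and BLK of the project FDF -/

set_option autoImplicit false

namespace Pool.Agent.P8H94.FDF

open Finset P8H39.FDF

theorem t_HOL : S_HOL := by
  intro k l x hkl hx
  set S := ∑ i, x i with hS
  have hm0 : 0 < 3 * k + 2 * l := by omega
  set M : ℝ := ((3 * k + 2 * l : ℕ) : ℝ) with hM
  have hM0 : 0 < M := by
    rw [hM]
    exact_mod_cast hm0
  set a := S / M with ha
  have hS0 : 0 ≤ S := sum_nonneg fun i _ => hx i
  have ha0 : 0 ≤ a := div_nonneg hS0 hM0.le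
  have tan : ∀ c y : ℝ, 0 ≤ c → 0 ≤ y → 3 * c ^ 2 * y - 2 * c ^ 3 ≤ y ^ 3 := by
    intro c y hc hy
    nlinarith [mul_nonneg (sq_nonneg (y - c)) (by linarith : 0 ≤ y + 2 * c)]
  have hterm : ∀ i : Fin (k + l),
      12 * a ^ 2 * x i - (if i.val < k then 24 * a ^ 3 else 16 * a ^ 3) ≤
        (if i.val < k then (4 / 9 : ℝ) else 1) * (x i) ^ 3 := by
    intro i
    split_ifs with h
    · have := tan (3 * a) (x i) (by linarith) (hx i)
      nlinarith
    · have := tan (2 * a) (x i) (by linarith) (hx i)
      nlinarith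
  have hcount : ∑ i : Fin (k + l), (if i.val < k then 24 * a ^ 3 else 16 * a ^ 3) =
      8 * a ^ 3 * M := by
    rw [Fin.sum_univ_add]
    have h1 : ∀ i : Fin k, (if (Fin.castAdd l i).val < k then 24 * a ^ 3 else 16 * a ^ 3) =
        24 * a ^ 3 := fun i => if_pos i.2
    have h2 : ∀ i : Fin l, (if (Fin.natAdd k i).val < k then 24 * a ^ 3 else 16 * a ^ 3) =
        16 * a ^ 3 := fun i => if_neg (by simp)
    rw [sum_congr rfl fun i _ => h1 i, sum_congr rfl fun i _ => h2 i, sum_const, sum_const,
      card_univ, card_univ, Fintype.card_fin, Fintype.card_fin, nsmul_eq_mul, nsmul_eq_mul, hM]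
    push_cast
    ring
  have hsum := sum_le_sum fun i (_ : i ∈ (univ : Finset (Fin (k + l)))) => hterm i
  rw [sum_sub_distrib, hcount, ← mul_sum, ← hS] at hsum
  have hSa : S = a * M := by
    rw [ha]
    field_simp
  have h3 : 4 / M ^ 2 * S ^ 3 = 4 * a ^ 3 * M := by
    rw [hSa]
    field_simp
  rw [h3]
  calc 4 * a ^ 3 * M = 12 * a ^ 2 * S - 8 * a ^ 3 * M := by
        rw [hSa]
        ring
    _ ≤ _ := hsum

theorem fdf_map {V W : Type} (e : W ↪ V) (r : V → V → Bool) (s : Finset W)
    (h : fdf (fun x y => r (e x) (e y)) s) : fdf r (s.map e) := by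
  obtain ⟨x, hx, h⟩ := h
  refine ⟨e x, mem_map_of_mem e hx, ?_⟩
  rcases h with h | h
  · left
    intro y hy
    obtain ⟨z, hz, rfl⟩ := mem_map.mp hy
    exact h z hz
  · right
    intro y hy hne
    obtain ⟨z, hz, rfl⟩ := mem_map.mp hy
    exact h z hz fun e' => hne (by rw [e'])

theorem six_choose (n : ℕ) : 6 * ((n.choose 3 : ℕ) : ℝ) = (n : ℝ) ^ 3 - 3 * (n : ℝ) ^ 2 + 2 * n := by
  induction n with
  | zero => simp
  | succ n ih =>
    have h := Nat.choose_succ_succ n 2
    have h2 := Nat.cast_choose_two ℝ n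
    rw [show (3 : ℕ) = Nat.succ 2 from rfl, ← Nat.succ_eq_add_one, h]
    push_cast
    rw [mul_add, h2]
    have e : (Nat.succ 2 : ℕ) = 3 := rfl
    rw [show ((n.choose (Nat.succ 2) : ℕ) : ℝ) = ((n.choose 3 : ℕ) : ℝ) from rfl, ih]
    ring

theorem t_BLK : S_BLK := by
  intro hK4 hHOL hCNT hFF k l hkl V _ _ b r hr hC
  classical
  constructor
  · intro t ht
    by_cases h1 : ∃ i : Fin (k + l), i.val < k ∧ 4 ≤ (t.filter fun x => b x = i).card
    · obtain ⟨i, hi, h4⟩ := h1
      obtain ⟨t', ht', hc⟩ := exists_subset_card_eq h4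
      have hbi : ∀ x ∈ t', b x = i := fun x hx => (mem_filter.mp (ht' hx)).2
      obtain ⟨s, hs, hs3, hsf⟩ := hK4 V r hr t' hc (by
        intro a ha c hc d hd e he h1 h2 h3 h4
        exact hC a c d e (by rw [hbi a ha, hbi c hc]) (by rw [hbi a ha, hbi d hd])
          (by rw [hbi a ha, hbi e he]) (by rw [hbi a ha]; exact hi) h1 h2 h3 h4)
      refine ⟨s, ?_, fun x hx => (mem_filter.mp (ht' (hs hx))).1⟩
      rw [blkT, mem_filter, mem_powersetCard]
      exact ⟨⟨subset_univ _, hs3⟩, i, fun x hx => hbi x (hs hx), Or.inr hsf⟩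
    by_cases h2 : ∃ i : Fin (k + l), k ≤ i.val ∧ 3 ≤ (t.filter fun x => b x = i).card
    · obtain ⟨i, hi, h4⟩ := h2
      obtain ⟨s, hs, hc⟩ := exists_subset_card_eq h4
      refine ⟨s, ?_, fun x hx => (mem_filter.mp (hs hx)).1⟩
      rw [blkT, mem_filter, mem_powersetCard]
      exact ⟨⟨subset_univ _, hc⟩, i, fun x hx => (mem_filter.mp (hs hx)).2, Or.inl hi⟩
    exfalso
    push Not at h1 h2
    have h3 : t.card = ∑ i : Fin (k + l), (t.filter fun x => b x = i).card :=
      card_eq_sum_card_fiberwise fun x _ => mem_coe.mpr (mem_univ (b x))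
    have h4 : ∑ i : Fin (k + l), (t.filter fun x => b x = i).card ≤
        ∑ i : Fin (k + l), (if i.val < k then 3 else 2) := by
      apply sum_le_sum
      intro i _
      split_ifs with h
      · have := h1 i h
        omega
      · have := h2 i (by omega)
        omega
    have h5 : ∑ i : Fin (k + l), (if i.val < k then 3 else 2) = 3 * k + 2 * l := by
      rw [Fin.sum_univ_add]
      have e1 : ∀ i : Fin k, (if (Fin.castAdd l i).val < k then 3 else 2) = 3 := fun i => if_pos i.2
      have e2 : ∀ i : Fin l, (if (Fin.natAdd k i).val < k then 3 else 2) = 2 :=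
        fun i => if_neg (by simp)
      rw [sum_congr rfl fun i _ => e1 i, sum_congr rfl fun i _ => e2 i]
      simp
      ring
    omega
  · -- the blocks
    let n : Fin (k + l) → ℕ := fun i => Fintype.card {x : V // b x = i}
    let ri : ∀ i : Fin (k + l), {x : V // b x = i} → {x : V // b x = i} → Bool :=
      fun i x y => r x y
    let F : Fin (k + l) → Finset (Finset V) := fun i =>
      if i.val < k then (fdfT (ri i)).map (mapEmbedding (Function.Embedding.subtype _)).toEmbedding
      else powersetCard 3 (univ.filter fun x => b x = i)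
    have hF3 : ∀ i, ∀ s ∈ F i, s.card = 3 ∧ ∀ x ∈ s, b x = i := by
      intro i s hs
      by_cases hi : i.val < k
      · simp only [F, if_pos hi] at hs
        obtain ⟨s', hs', rfl⟩ := mem_map.mp hs
        rw [fdfT, mem_filter, mem_powersetCard] at hs'
        refine ⟨?_, ?_⟩
        · show (s'.map _).card = 3
          rw [card_map]
          exact hs'.1.2
        · intro x hx
          obtain ⟨y, hy, rfl⟩ := mem_map.mp hx
          exact y.2
      · simp only [F, if_neg hi] at hs
        rw [mem_powersetCard] at hs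
        exact ⟨hs.2, fun x hx => (mem_filter.mp (hs.1 hx)).2⟩
    have hFsub : ∀ i, F i ⊆ blkT k l b r := by
      intro i s hs
      have h3 := hF3 i s hs
      rw [blkT, mem_filter, mem_powersetCard]
      refine ⟨⟨subset_univ _, h3.1⟩, i, h3.2, ?_⟩
      by_cases hi : i.val < k
      · right
        simp only [F, if_pos hi] at hs
        obtain ⟨s', hs', rfl⟩ := mem_map.mp hs
        rw [fdfT, mem_filter] at hs'
        exact fdf_map _ r s' hs'.2
      · left
        omega
    have hdisj : ∀ i ∈ (univ : Finset (Fin (k + l))), ∀ j ∈ (univ : Finset (Fin (k + l))),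
        i ≠ j → Disjoint (F i) (F j) := by
      intro i _ j _ hij
      rw [disjoint_left]
      intro s hs hs'
      have h1 := hF3 i s hs
      have h2 := hF3 j s hs'
      obtain ⟨x, hx⟩ : s.Nonempty := by
        rw [← card_pos, h1.1]
        norm_num
      exact hij ((h1.2 x hx).symm.trans (h2.2 x hx))
    have hcard : ∑ i, (F i).card ≤ (blkT k l b r).card := by
      rw [← card_biUnion hdisj]
      exact card_le_card (biUnion_subset.mpr fun i _ => hFsub i)
    have hlow : ∀ i, (if i.val < k then (4 / 9 : ℝ) else 1) * (n i : ℝ) ^ 3 - 3 * (n i : ℝ) ^ 2 +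
        2 * n i ≤ 6 * ((F i).card : ℝ) := by
      intro i
      by_cases hi : i.val < k
      · simp only [F, if_pos hi, card_map]
        have hori : Ori (ri i) := fun x y h => hr x y h
        have hc := hCNT _ (ri i) hori
        have harc : (0 : ℝ) ≤ arcs (ri i) := Nat.cast_nonneg _
        by_cases hne : Nonempty {x : V // b x = i}
        · have hnoc : NoC4 (ri i) := by
            intro x y z w h1 h2 h3 h4
            exact hC x y z w (by rw [x.2, y.2]) (by rw [x.2, z.2]) (by rw [x.2, w.2])
              (by rw [x.2]; exact hi) h1 h2 h3 h4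
          have hff := hFF _ (ri i) hori hnoc
          have hn3 : (0 : ℝ) ≤ (n i : ℝ) ^ 3 := by positivity
          have h5 : 4 / 9 * (n i : ℝ) ^ 3 ≤ FF (ri i) * (n i : ℝ) ^ 3 :=
            mul_le_mul_of_nonneg_right hff hn3
          have h6 : (n i : ℝ) = (Fintype.card {x : V // b x = i} : ℝ) := rfl
          rw [h6] at h5 ⊢
          nlinarith
        · have h0 : n i = 0 := by
            show Fintype.card {x : V // b x = i} = 0
            rw [Fintype.card_eq_zero_iff]
            exact not_nonempty_iff.mp hne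
          rw [h0]
          norm_num
      · simp only [F, if_neg hi, card_powersetCard]
        have h1 : (univ.filter fun x => b x = i).card = n i := by
          rw [← Fintype.card_subtype]
        rw [h1, six_choose]
        linarith
    have hN : ∑ i, (n i : ℝ) = (Fintype.card V : ℝ) := by
      have h1 : Fintype.card V = ∑ i, n i := by
        rw [← card_univ, card_eq_sum_card_fiberwise (f := b) (t := univ)
          fun x _ => mem_coe.mpr (mem_univ (b x))]
        refine sum_congr rfl fun i _ => ?_
        show (univ.filter fun x => b x = i).card = Fintype.card {x : V // b x = i}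
        rw [← Fintype.card_subtype]
      rw [h1]
      push_cast
      rfl
    have hsq : ∑ i, (n i : ℝ) ^ 2 ≤ (Fintype.card V : ℝ) ^ 2 := by
      rw [← hN]
      rw [sq (∑ i, (n i : ℝ)), mul_sum]
      refine sum_le_sum fun i _ => ?_
      rw [sq]
      exact mul_le_mul_of_nonneg_right
        (single_le_sum (f := fun i => (n i : ℝ)) (fun i _ => Nat.cast_nonneg _) (mem_univ i))
        (Nat.cast_nonneg _)
    have hhol := hHOL k l (fun i => (n i : ℝ)) hkl fun i => Nat.cast_nonneg _
    have hsum := sum_le_sum fun i (_ : i ∈ (univ : Finset (Fin (k + l)))) => hlow i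
    rw [sum_add_distrib, sum_sub_distrib, ← mul_sum, ← mul_sum, hN, ← mul_sum] at hsum
    rw [hN] at hhol
    have hcard' : ∑ i, ((F i).card : ℝ) ≤ ((blkT k l b r).card : ℝ) := by
      exact_mod_cast hcard
    have hsub : blkT k l b r ⊆ powersetCard 3 univ := by
      rw [blkT]
      exact filter_subset _ _
    rw [cast_card_sdiff hsub, card_powersetCard, card_univ, mul_sub, six_choose]
    have e1 : (1 - (2 / ((3 * k + 2 * l : ℕ) : ℝ)) ^ 2) * (Fintype.card V : ℝ) ^ 3 =
        (Fintype.card V : ℝ) ^ 3 -
          4 / ((3 * k + 2 * l : ℕ) : ℝ) ^ 2 * (Fintype.card V : ℝ) ^ 3 := by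
      rw [div_pow]
      ring
    rw [e1]
    linarith

end Pool.Agent.P8H94.FDF
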